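import Pool.Agent.Lib.MP_5e64e7_nt.UFin
import Pool.Agent.Lib.MP_5e64e7_nt.UExa
import Pool.Agent.Lib.MP_5e64e7_nt.UExM
import Pool.Agent.Lib.MP_5e64e7_nt.QExa

set_option autoImplicit false

/-!
# The modular Schanuel conjecture with derivatives for fields approximated by imaginary quadratic points

Let `w = (w₀, …, w_{m-1})` be complex numbers and `v = (v₀, …, v_{M-1})` numbers algebraic over `ℚ(w)`, such that
`(w, v)` is hierarchically super-approximable by points `(w', v')` with coordinates in imaginary quadratic fields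
`ℚ(√(-D))`; the field may change with the approximation. Let `E = ℚ(w, v)`.

(1) The inequality of Q1 (the conclusion of the frozen statement) holds for all `n` and ALL `z` in `(E ∩ ℍ)ⁿ`.

(2) If `z₁, …, z_n ∈ E ∩ ℍ` are not quadratic and pairwise not `GL₂⁺(ℚ)`-related, then the `m + 3n` numbers
`w, j(z_k), j'(z_k), j''(z_k)` are algebraically independent; and if `τ ∈ E ∩ ℍ` is quadratic and `T = j'(τ)` or
`T = j''(τ)` is not zero, then so are the `m + 3n + 1` numbers `T, w, j(z_k), j'(z_k), j''(z_k)`.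

(3) The fields `E = ℚ(√(-D), w)`, `w ∈ ℂᵐ` super-approximable by points of the field `ℚ(√(-D))`, and the fields
`E = ℚ(w)`, `w ∈ ℂᵐ` super-approximable by points of changing fields `ℚ(√(-D))`, for instance
`w_l = x_l + i √y` with real numbers `x_l`, `y > 0` super-approximable by rational numbers.
-/

noncomputable section

namespace Pool.Agent.Results.MP_5e64e7_nt.CMFields

/-- The coordinates of `x` are of the form `(a + b √(-D))/c` with integers `|a|, |b| ≤ B`, `1 ≤ c ≤ B`,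
and `1 ≤ D ≤ B`. -/
def Pt {m : ℕ} (B D : ℕ) (x : Fin m → ℂ) : Prop :=
  1 ≤ D ∧ D ≤ B ∧ ∃ (a b : Fin m → ℤ) (c : Fin m → ℕ),
    ∀ l, 1 ≤ c l ∧ c l ≤ B ∧ |a l| ≤ (B : ℤ) ∧ |b l| ≤ (B : ℤ) ∧
      x l = ((a l : ℂ) + (b l : ℂ) * ((Real.sqrt (D : ℝ) : ℂ) * Complex.I)) / (c l : ℂ)

/-- `(w', v')` is a specialisation of `(w, v)` over `ℚ`. -/
def Spec {m M : ℕ} (w : Fin m → ℂ) (v : Fin M → ℂ) (w' : Fin m → ℂ) (v' : Fin M → ℂ) : Prop :=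
  ∀ P : MvPolynomial (Fin m ⊕ Fin M) ℤ, MvPolynomial.aeval (Sum.elim w v) P = 0 →
    MvPolynomial.aeval (Sum.elim w' v') P = 0

/-- `v` is algebraic over `ℚ(w)` and `(w, v)` is hierarchically super-approximable by points of
imaginary quadratic fields. -/
def CM {m M : ℕ} (w : Fin m → ℂ) (v : Fin M → ℂ) : Prop :=
  (∀ j, IsAlgebraic (IntermediateField.adjoin ℚ (Set.range w)) (v j)) ∧
  ∀ C : ℕ, ∃ (B D : ℕ) (w' : Fin m → ℂ) (v' : Fin M → ℂ), 2 ≤ B ∧ Pt B D w' ∧ Pt B D v' ∧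
    Spec w v w' v' ∧ (∀ j, ‖v j - v' j‖ ≤ 1 / ((C : ℝ) + 1)) ∧ (∀ l, w l ≠ w' l) ∧
    (∀ l : Fin m, (l : ℕ) = 0 → ‖w l - w' l‖ ≤ Real.exp (-((B : ℝ) ^ C))) ∧
    (∀ l l' : Fin m, (l' : ℕ) = (l : ℕ) + 1 → ‖w l' - w' l'‖ ≤ ‖w l - w' l‖ ^ C)

/-- The same without `v`, the numbers `D` in a set `S`. -/
def HierQ {m : ℕ} (S : Set ℕ) (w : Fin m → ℂ) : Prop :=
  ∀ C : ℕ, ∃ (B D : ℕ) (w' : Fin m → ℂ), 2 ≤ B ∧ D ∈ S ∧ Pt B D w' ∧ (∀ l, w l ≠ w' l) ∧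
    (∀ l : Fin m, (l : ℕ) = 0 → ‖w l - w' l‖ ≤ Real.exp (-((B : ℝ) ^ C))) ∧
    (∀ l l' : Fin m, (l' : ℕ) = (l : ℕ) + 1 → ‖w l' - w' l'‖ ≤ ‖w l - w' l‖ ^ C)

/-- The real numbers `w₀, …, w_{m-1}` are hierarchically super-approximable by rational numbers. -/
def Hier {m : ℕ} (w : Fin m → ℝ) : Prop :=
  ∀ C : ℕ, ∃ (B : ℕ) (a : Fin m → ℤ) (c : Fin m → ℕ), 2 ≤ B ∧
    (∀ l, 1 ≤ c l ∧ c l ≤ B ∧ |a l| ≤ (B : ℤ) ∧ w l ≠ (a l : ℝ) / (c l : ℝ)) ∧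
    (∀ l : Fin m, (l : ℕ) = 0 → |w l - (a l : ℝ) / (c l : ℝ)| ≤ Real.exp (-((B : ℝ) ^ C))) ∧
    (∀ l l' : Fin m, (l' : ℕ) = (l : ℕ) + 1 →
      |w l' - (a l' : ℝ) / (c l' : ℝ)| ≤ |w l - (a l : ℝ) / (c l : ℝ)| ^ C)

/-- The field `ℚ(w, v)`. -/
def Fld {m M : ℕ} (w : Fin m → ℂ) (v : Fin M → ℂ) : IntermediateField ℚ ℂ :=
  IntermediateField.adjoin ℚ (Set.range w ∪ Set.range v)

/-- a root of a quadratic polynomial over `ℚ` -/
def Quadratic (z : ℂ) : Prop := ∃ a b c : ℚ, a ≠ 0 ∧ (a : ℂ) * z ^ 2 + (b : ℂ) * z + (c : ℂ) = 0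

/-- `z' = h z` for some `h` in `GL₂⁺(ℚ)` -/
def Related (z z' : ℂ) : Prop := ∃ p q r s : ℚ, 0 < p * s - q * r ∧
  z' = ((p : ℂ) * z + (q : ℂ)) / ((r : ℂ) * z + (s : ℂ))

/-- the numbers `w_l, j(z_k), j'(z_k), j''(z_k)` -/
def Fam (j : ℂ → ℂ) {m n : ℕ} (w : Fin m → ℂ) (z : Fin n → ℂ) : Fin m ⊕ (Fin n × Fin 3) → ℂ :=
  Sum.elim w fun p => ![j (z p.1), deriv j (z p.1), deriv (deriv j) (z p.1)] p.2

/-- `d` of the numbers `z_k, j(z_k), j'(z_k), j''(z_k)` are algebraically independent over `ℚ` -/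
def Independent (j : ℂ → ℂ) {n : ℕ} (z : Fin n → ℂ) (d : ℕ) : Prop :=
  ∃ f : Fin d → ℂ, AlgebraicIndependent ℚ f ∧
    ∀ r, ∃ p : Fin 4 × Fin n,
      f r = ![z p.2, j (z p.2), deriv j (z p.2), deriv (deriv j) (z p.2)] p.1

/-- the inequality of Q1 for `z`: the statement of `S17117` for one tuple -/
def Schanuel (j : ℂ → ℂ) {n : ℕ} (z : Fin n → ℂ) : Prop :=
  ∀ U : Set (Fin n → ℂ),
    U = {w : Fin n → ℂ | (∀ i, 0 < (w i).im) ∧
      (∀ (i k : Fin n) (a b c e : ℚ), 0 < a * e - b * c →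
        z i = ((a : ℂ) * z k + (b : ℂ)) / ((c : ℂ) * z k + (e : ℂ)) →
        w i = ((a : ℂ) * w k + (b : ℂ)) / ((c : ℂ) * w k + (e : ℂ))) ∧
      (∀ i, (∃ a b c : ℚ, a ≠ 0 ∧
        (a : ℂ) * z i ^ 2 + (b : ℂ) * z i + (c : ℂ) = 0) → w i = z i)} →
    ∀ d : ℕ,
      ((d : WithBot ENat) +
        ringKrullDim (MvPolynomial (Fin n) ℂ ⧸
          (⨅ w ∈ U, RingHom.ker (MvPolynomial.eval w)))
        ≤ ringKrullDim (MvPolynomial (Fin 4 × Fin n) (integralClosure ℚ ℂ) ⧸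
          (⨅ w ∈ U, RingHom.ker (MvPolynomial.aeval (R := integralClosure ℚ ℂ)
            (fun p : Fin 4 × Fin n =>
              ![w p.2, j (w p.2), deriv j (w p.2), deriv (deriv j) (w p.2)] p.1))))) →
      Independent j z d

/-- **Theorem.** See the header. -/
theorem result :
    ∀ (E4 E6 j : ℂ → ℂ),
    E4 = (fun τ : ℂ => 1 + 240 * ∑' m : ℕ,
      (((ArithmeticFunction.sigma 3) (m + 1) : ℕ) : ℂ) *
        Complex.exp (2 * (Real.pi : ℂ) * Complex.I * τ) ^ (m + 1)) →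
    E6 = (fun τ : ℂ => 1 - 504 * ∑' m : ℕ,
      (((ArithmeticFunction.sigma 5) (m + 1) : ℕ) : ℂ) *
        Complex.exp (2 * (Real.pi : ℂ) * Complex.I * τ) ^ (m + 1)) →
    j = (fun τ : ℂ => 1728 * E4 τ ^ 3 / (E4 τ ^ 3 - E6 τ ^ 2)) →
    (∀ (m M : ℕ) (w : Fin m → ℂ) (v : Fin M → ℂ), CM w v →
      (∀ (n : ℕ) (z : Fin n → ℂ), (∀ k, 0 < (z k).im) → (∀ k, z k ∈ Fld w v) →
        Schanuel j z) ∧
      (∀ (n : ℕ) (z : Fin n → ℂ), (∀ k, 0 < (z k).im) → (∀ k, z k ∈ Fld w v) →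
        (∀ k, ¬ Quadratic (z k)) → (∀ k l, k ≠ l → ¬ Related (z k) (z l)) →
        AlgebraicIndependent ℚ (Fam j w z) ∧
        ∀ τ ∈ Fld w v, 0 < τ.im → Quadratic τ →
          ∀ T : ℂ, (T = deriv j τ ∨ T = deriv (deriv j) τ) → T ≠ 0 →
            AlgebraicIndependent ℚ (fun o : Option (Fin m ⊕ (Fin n × Fin 3)) =>
              o.elim T (Fam j w z)))) ∧
    (∀ (m : ℕ) (w : Fin m → ℂ) (S : Set ℕ), HierQ S w → CM w (fun k : Fin 0 => (k.elim0 : ℂ))) ∧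
    (∀ (m : ℕ) (w : Fin m → ℂ) (D : ℕ), HierQ {D} w →
      CM w (fun _ : Fin 1 => (Real.sqrt (D : ℝ) : ℂ) * Complex.I)) ∧
    (∀ (m : ℕ) (x : Fin (m + 1) → ℝ), Hier x → 0 < x (Fin.last m) →
      HierQ Set.univ (fun l : Fin m => (x l.castSucc : ℂ) +
        Complex.I * (Real.sqrt (x (Fin.last m)) : ℂ))) ∧
    (∀ (m : ℕ) (x : Fin m → ℝ) (D : ℕ), Hier x → 1 ≤ D →
      HierQ {D} (fun l : Fin m => (x l : ℂ))) ∧
    (∀ (m : ℕ) (a : ℕ → ℕ), a 0 = 1 → (∀ k, a (k + 1) = 2 ^ ((k + 1) * a k)) →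
      Hier (fun l : Fin m => ∑' k : ℕ, (1 : ℝ) / 2 ^ a (k * m + (l : ℕ)))) := by
  intro E4 E6 j h4 h6 hj
  have hj' : j = Pool.Agent.Lib.MP5e.jf := by
    rw [hj, h4, h6]; rfl
  refine ⟨?_, fun m w S h => Pool.Agent.Lib.MP5e.uhier_cm0 h,
    fun m w D h => Pool.Agent.Lib.MP5e.uhier_cm1 h,
    fun m x hx h => Pool.Agent.Lib.MP5e.uexm x hx h,
    fun m x D hx hD => Pool.Agent.Lib.MP5e.uexr x hx D hD,
    fun m a h0 h1 => Pool.Agent.Lib.MP5e.qexa m a h0 h1⟩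
  rw [hj']
  intro m M w v hw
  have hw' : Pool.Agent.Lib.MP5e.UCM w v := hw
  refine ⟨?_, ?_⟩
  · intro n z him hz U hU d hd
    rw [hU] at hd
    exact Pool.Agent.Lib.MP5e.ufin hw' z hz him d hd
  · intro n z him hz hq hrel
    have hfam : Pool.Agent.Lib.MP5e.ufam w z = Fam Pool.Agent.Lib.MP5e.jf w z := by
      funext p
      rcases p with l | ⟨k, i⟩
      · rfl
      · fin_cases i <;> rfl
    refine ⟨?_, ?_⟩
    · rw [← hfam]
      exact Pool.Agent.Lib.MP5e.umain hw' z hz him hq hrel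
    · rintro τ hτ hτi hτq T (hT | hT) h0
      · rw [← hfam, hT]
        exact Pool.Agent.Lib.MP5e.umainT hw' z hz him hq hrel τ hτ hτi hτq 1 (by decide)
          (by rw [hT] at h0; exact h0)
      · rw [← hfam, hT]
        exact Pool.Agent.Lib.MP5e.umainT hw' z hz him hq hrel τ hτ hτi hτq 2 (by decide)
          (by rw [hT] at h0; exact h0)

end Pool.Agent.Results.MP_5e64e7_nt.CMFields
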