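import Pool.Agent.Lib.MP_5e64e7_nt.VFin
import Pool.Agent.Lib.MP_5e64e7_nt.QExa

set_option autoImplicit false

/-!
# The modular Schanuel conjecture with derivatives for tuples from several quadratic extensions

Let `w = (w₁, …, w_m)` be real numbers which are hierarchically super-approximable by rational numbers
(for `m = 1`: very fast approximation of one real number by rational numbers), and let
`z_k ∈ ℍ ∩ ℚ(w)(s_{e(k)})`, `k = 1, …, n`, where `s_i² ∈ ℚ(w)`, `i = 1, …, F`: arbitrary points quadratic over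
`ℚ(w)`, with arbitrary dependencies, related coordinates and special coordinates.

(1) The inequality of Q1 (the conclusion of the frozen statement) holds for `z`, if `ρ` of its coordinates
are algebraically independent and at most `ρ + 1` of the classes `i` contain a coordinate `z_k` with `J(z_k)`
not algebraic. So for `F = 1` it holds for all tuples from the field `E = ℚ(w)(s)`, and for `F = 2` it holds for
all tuples from `E₁ ∪ E₂` with a coordinate which is not quadratic over `ℚ`.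

(2) If `N` of the coordinates are not quadratic over `ℚ` and pairwise not `GL₂⁺(ℚ)`-related, then at least
`m + 3N + 1 - f₀` of the numbers `w_l, z_k, j(z_k), j'(z_k), j''(z_k)` are algebraically independent, and at
least `3N + ρ + 1 - f₀` of the numbers `z_k, j(z_k), j'(z_k), j''(z_k)`, if `ρ` of the coordinates are
algebraically independent. Here `f₀` is the number of those classes `i` of the `N` coordinates which do not
contain a special coordinate with `(j', j'') ≠ 0`; it is assumed that `N ≥ 1` or that there is a special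
coordinate with `(j', j'') ≠ 0`.
-/

noncomputable section

namespace Pool.Agent.Results.MP_5e64e7_nt.SeveralExtensions

/-- The real numbers `w₀, …, w_{m-1}` are hierarchically super-approximable: for every `C` there are
`B ≥ 2` and rational numbers `a_l/c_l ≠ w_l` with `|a_l|, c_l ≤ B` such that
`|w₀ - a₀/c₀| ≤ exp(-B^C)` and `|w_{l+1} - a_{l+1}/c_{l+1}| ≤ |w_l - a_l/c_l|^C`. -/
def Hier {m : ℕ} (w : Fin m → ℝ) : Prop :=
  ∀ C : ℕ, ∃ (B : ℕ) (a : Fin m → ℤ) (c : Fin m → ℕ), 2 ≤ B ∧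
    (∀ l, 1 ≤ c l ∧ c l ≤ B ∧ |a l| ≤ (B : ℤ) ∧ w l ≠ (a l : ℝ) / (c l : ℝ)) ∧
    (∀ l : Fin m, (l : ℕ) = 0 → |w l - (a l : ℝ) / (c l : ℝ)| ≤ Real.exp (-((B : ℝ) ^ C))) ∧
    (∀ l l' : Fin m, (l' : ℕ) = (l : ℕ) + 1 →
      |w l' - (a l' : ℝ) / (c l' : ℝ)| ≤ |w l - (a l : ℝ) / (c l : ℝ)| ^ C)

/-- `ℚ(w)` -/
def Qw {m : ℕ} (w : Fin m → ℝ) : IntermediateField ℚ ℂ :=
  IntermediateField.adjoin ℚ (Set.range (fun l => (w l : ℂ)))

/-- `ℚ(w)(s)` -/
def Qws {m : ℕ} (w : Fin m → ℝ) (s : ℂ) : IntermediateField ℚ ℂ :=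
  IntermediateField.adjoin ℚ (Set.range (fun l => (w l : ℂ)) ∪ {s})

/-- a root of a quadratic polynomial over `ℚ` -/
def Quadratic (z : ℂ) : Prop := ∃ a b c : ℚ, a ≠ 0 ∧ (a : ℂ) * z ^ 2 + (b : ℂ) * z + (c : ℂ) = 0

/-- `z' = h z` for some `h` in `GL₂⁺(ℚ)` -/
def Related (z z' : ℂ) : Prop := ∃ p q r s : ℚ, 0 < p * s - q * r ∧
  z' = ((p : ℂ) * z + (q : ℂ)) / ((r : ℂ) * z + (s : ℂ))

/-- `d` of the numbers `z_k, j(z_k), j'(z_k), j''(z_k)` are algebraically independent over `ℚ` -/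
def Independent (j : ℂ → ℂ) {n : ℕ} (z : Fin n → ℂ) (d : ℕ) : Prop :=
  ∃ f : Fin d → ℂ, AlgebraicIndependent ℚ f ∧
    ∀ r, ∃ p : Fin 4 × Fin n,
      f r = ![z p.2, j (z p.2), deriv j (z p.2), deriv (deriv j) (z p.2)] p.1

/-- `d` of the numbers `w_l, z_k, j(z_k), j'(z_k), j''(z_k)` are algebraically independent over `ℚ` -/
def IndependentW (j : ℂ → ℂ) {m n : ℕ} (w : Fin m → ℝ) (z : Fin n → ℂ) (d : ℕ) : Prop :=
  ∃ f : Fin d → ℂ, AlgebraicIndependent ℚ f ∧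
    ∀ r, ∃ p : Fin m ⊕ (Fin 4 × Fin n), f r = Sum.elim (fun l => (w l : ℂ)) (fun p =>
      ![z p.2, j (z p.2), deriv j (z p.2), deriv (deriv j) (z p.2)] p.1) p

/-- the class `i` counts: it contains a coordinate which is not a quadratic number at which `j', j''` vanish -/
def Counts (j : ℂ → ℂ) {n F : ℕ} (z : Fin n → ℂ) (e : Fin n → Fin F) (i : Fin F) : Prop :=
  ∃ k, e k = i ∧ ¬ (Quadratic (z k) ∧ deriv j (z k) = 0 ∧ deriv (deriv j) (z k) = 0)

/-- the class `i` contains one of the points `z (κ l)`, but no quadratic coordinate with `(j', j'') ≠ 0` -/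
def Bad (j : ℂ → ℂ) {n F N : ℕ} (z : Fin n → ℂ) (e : Fin n → Fin F) (κ : Fin N → Fin n)
    (i : Fin F) : Prop :=
  (∃ l, e (κ l) = i) ∧
    ∀ k, e k = i → Quadratic (z k) → deriv j (z k) = 0 ∧ deriv (deriv j) (z k) = 0

/-- the inequality of Q1 for `z`: the statement of `S17117` for one tuple -/
def Schanuel (j : ℂ → ℂ) {n : ℕ} (z : Fin n → ℂ) : Prop :=
  ∀ U : Set (Fin n → ℂ),
    U = {w : Fin n → ℂ | (∀ i, 0 < (w i).im) ∧
      (∀ (i k : Fin n) (a b c e : ℚ), 0 < a * e - b * c →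
        z i = ((a : ℂ) * z k + (b : ℂ)) / ((c : ℂ) * z k + (e : ℂ)) →
        w i = ((a : ℂ) * w k + (b : ℂ)) / ((c : ℂ) * w k + (e : ℂ))) ∧
      (∀ i, (∃ a b c : ℚ, a ≠ 0 ∧
        (a : ℂ) * z i ^ 2 + (b : ℂ) * z i + (c : ℂ) = 0) → w i = z i)} →
    ∀ d : ℕ,
      ((d : WithBot ENat) +
        ringKrullDim (MvPolynomial (Fin n) ℂ ⧸
          (⨅ w ∈ U, RingHom.ker (MvPolynomial.eval w)))
        ≤ ringKrullDim (MvPolynomial (Fin 4 × Fin n) (integralClosure ℚ ℂ) ⧸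
          (⨅ w ∈ U, RingHom.ker (MvPolynomial.aeval (R := integralClosure ℚ ℂ)
            (fun p : Fin 4 × Fin n =>
              ![w p.2, j (w p.2), deriv j (w p.2), deriv (deriv j) (w p.2)] p.1))))) →
      Independent j z d

/-- **Theorem.** See the header. -/
theorem result :
    ∀ (E4 E6 j : ℂ → ℂ),
    E4 = (fun τ : ℂ => 1 + 240 * ∑' m : ℕ,
      (((ArithmeticFunction.sigma 3) (m + 1) : ℕ) : ℂ) *
        Complex.exp (2 * (Real.pi : ℂ) * Complex.I * τ) ^ (m + 1)) →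
    E6 = (fun τ : ℂ => 1 - 504 * ∑' m : ℕ,
      (((ArithmeticFunction.sigma 5) (m + 1) : ℕ) : ℂ) *
        Complex.exp (2 * (Real.pi : ℂ) * Complex.I * τ) ^ (m + 1)) →
    j = (fun τ : ℂ => 1728 * E4 τ ^ 3 / (E4 τ ^ 3 - E6 τ ^ 2)) →
    (∀ (m : ℕ) (w : Fin m → ℝ), Hier w →
      ∀ (F : ℕ) (s : Fin F → ℂ), (∀ i, s i ^ 2 ∈ Qw w) →
        ∀ (n : ℕ) (z : Fin n → ℂ) (e : Fin n → Fin F), (∀ k, 0 < (z k).im) →
        (∀ k, z k ∈ Qws w (s (e k))) →
        (∀ (ρ : ℕ) (μ : Fin ρ → Fin n), AlgebraicIndependent ℚ (fun i => z (μ i)) →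
          Nat.card {i : Fin F // Counts j z e i} ≤ ρ + 1 → Schanuel j z) ∧
        ∀ (N : ℕ) (κ : Fin N → Fin n), (∀ l, ¬ Quadratic (z (κ l))) →
          (∀ l l', l ≠ l' → ¬ Related (z (κ l)) (z (κ l'))) →
          (0 < N ∨ ∃ k, Quadratic (z k) ∧ ¬ (deriv j (z k) = 0 ∧ deriv (deriv j) (z k) = 0)) →
          (∀ d : ℕ, d + Nat.card {i : Fin F // Bad j z e κ i} ≤ m + 3 * N + 1 →
            IndependentW j w z d) ∧
          ∀ (ρ : ℕ) (μ : Fin ρ → Fin n), AlgebraicIndependent ℚ (fun i => z (μ i)) →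
            ∀ d : ℕ, d + Nat.card {i : Fin F // Bad j z e κ i} ≤ 3 * N + ρ + 1 →
              Independent j z d) ∧
    (∀ (m : ℕ) (a : ℕ → ℕ), a 0 = 1 → (∀ k, a (k + 1) = 2 ^ ((k + 1) * a k)) →
      Hier (fun l : Fin m => ∑' k : ℕ, (1 : ℝ) / 2 ^ a (k * m + (l : ℕ)))) := by
  intro E4 E6 j h4 h6 hj
  have hj' : j = Pool.Agent.Lib.MP5e.jf := by
    rw [hj, h4, h6]; rfl
  refine ⟨?_, fun m a h0 h1 => Pool.Agent.Lib.MP5e.qexa m a h0 h1⟩
  rw [hj']
  intro m w hw F s hs n z e him hz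
  refine ⟨?_, ?_⟩
  · intro ρ μ hμ hF U hU d hd
    rw [hU] at hd
    exact Pool.Agent.Lib.MP5e.vA w hw z him s e hs hz μ hμ hF d hd
  · intro N κ hq hrel hper
    refine ⟨?_, ?_⟩
    · intro d hd
      exact Pool.Agent.Lib.MP5e.vBw w hw z him s e hs hz κ hq hrel hper d hd
    · intro ρ μ hμ d hd
      exact Pool.Agent.Lib.MP5e.vB w hw z him s e hs hz κ hq hrel hper μ hμ d hd

end Pool.Agent.Results.MP_5e64e7_nt.SeveralExtensions
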